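import Pool.Agent.V5helper52.FB.Roots
import Pool.Agent.V5helper52.PT.Pair
import Pool.Agent.V5helper52.SF.QInd

/-!
# Polynomials with independent exponents and coefficients in a base
-/

set_option autoImplicit false
set_option maxHeartbeats 400000

open CategoryTheory AlgebraicGeometry MvPolynomial Pool.Agent.Y116.UV Pool.Agent.V5helper52.SF
  Pool.Agent.V5helper52.FW Pool.Agent.Z125.UN TensorProduct

namespace Pool.Agent.V5helper52.FB

variable {k : Type} [Field k] {P : Sch k → Prop} (hP : Cls True P) {n : ℕ}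
  (hn : ∀ (A : Type) [CommRing A] [Algebra k A] [Algebra.FiniteType k A], ringKrullDim A ≤ n →
    P (aff k A))
  {σ : Type} [Fintype σ] [DecidableEq σ]

/-- the system with the exponents in `S`, with the coefficients `M i m * a m` -/
noncomputable def fam {L : Type} [CommRing L] [Algebra k L] {κ : Type} (S : Finset (σ →₀ ℕ))
    (M : κ → (σ →₀ ℕ) → k) (a : (σ →₀ ℕ) → L) (i : κ) : MvPolynomial σ L :=
  ∑ m ∈ S, monomial m (algebraMap k L (M i m) * a m)

omit [Fintype σ] [DecidableEq σ] in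
lemma map_fam {L L' : Type} [CommRing L] [Algebra k L] [CommRing L'] [Algebra k L'] {κ : Type}
    (g : L →ₐ[k] L') (S : Finset (σ →₀ ℕ)) (M : κ → (σ →₀ ℕ) → k) (a : (σ →₀ ℕ) → L) (i : κ) :
    MvPolynomial.map (g : L →+* L') (fam S M a i) = fam S M (fun m => g (a m)) i := by
  rw [fam, fam, map_sum]
  refine Finset.sum_congr rfl fun m _ => ?_
  rw [map_monomial, map_mul]
  congr 2
  exact g.commutes _

omit [Fintype σ] [DecidableEq σ] in
lemma bc_fam {L L' : Type} [CommRing L] [Algebra k L] [CommRing L'] [Algebra k L'] {κ : Type}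
    (g : L →ₐ[k] L') (S : Finset (σ →₀ ℕ)) (M : κ → (σ →₀ ℕ) → k) (a : (σ →₀ ℕ) → L) :
    bc g (Ideal.span (Set.range (fam S M a))) =
      Ideal.span (Set.range (fam S M fun m => g (a m))) := by
  rw [bc_span, ← Set.range_comp]
  congr 2
  funext i
  exact map_fam g S M a i

include hP

/-- the constant system over a base -/
lemma p_const {L : Type} [CommRing L] [Algebra k L] [Algebra.FiniteType k L] (hL : P (aff k L))
    {κ : Type} (S : Finset (σ →₀ ℕ)) (M : κ → (σ →₀ ℕ) → k)
    (h0 : P (aff k (MvPolynomial σ k ⧸ Ideal.span (Set.range (fam (k := k) S M fun _ => (1 : k)))))) :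
    P (aff k (Tq (Ideal.span (Set.range (fam S M fun _ => (1 : L)))))) := by
  have hq : Algebra.FiniteType k (Tq (Ideal.span (Set.range (fam (k := k) S M fun _ => (1 : k))))) :=
    inferInstanceAs (Algebra.FiniteType k (MvPolynomial σ k ⧸
      (Ideal.span (Set.range (fam (k := k) S M fun _ => (1 : k))) : Ideal (MvPolynomial σ k))))
  have h2 : P (aff k (Tq (Ideal.span (Set.range (fam (k := k) S M fun _ => (1 : k)))) ⊗[k] L)) :=
    hP.prod (Tq (Ideal.span (Set.range (fam (k := k) S M fun _ => (1 : k))))) L h0 hL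
  have hft2 : Algebra.FiniteType k
      (Tq (Ideal.span (Set.range (fam (k := k) S M fun _ => (1 : k)))) ⊗[k] L) := tens_ft _ _
  have h3 : P (aff k (Tq (bc (IsScalarTower.toAlgHom k k L)
      (Ideal.span (Set.range (fam (k := k) S M fun _ => (1 : k))))))) :=
    @iso' k _ True P hP (Tq (Ideal.span (Set.range (fam (k := k) S M fun _ => (1 : k)))) ⊗[k] L)
      _ _ _ hft2 _ _ (tTens (k := k) (E := k) (E' := L)
        (J := Ideal.span (Set.range (fam (k := k) S M fun _ => (1 : k))))) h2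
  rw [bc_fam] at h3
  have h4 : (fun _ : σ →₀ ℕ => IsScalarTower.toAlgHom k k L (1 : k)) = fun _ => (1 : L) :=
    funext fun _ => map_one _
  rw [h4] at h3
  exact h3

include hn in
/-- unit coefficients -/
theorem p_units {L : Type} [CommRing L] [Algebra k L] [Algebra.FiniteType k L]
    (hL : ringKrullDim L ≤ n) {κ : Type} (S : Finset (σ →₀ ℕ)) (M : κ → (σ →₀ ℕ) → k)
    (a : (σ →₀ ℕ) → L) (ha : ∀ m ∈ S, IsUnit (a m))
    (hf : AffineIndependent ℚ (fun (m : S) (i : σ) => (m.1 i : ℚ)))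
    (h0 : P (aff k (MvPolynomial σ k ⧸ Ideal.span (Set.range (fam (k := k) S M fun _ => (1 : k)))))) :
    P (aff k (Tq (Ideal.span (Set.range (fam S M a))))) := by
  classical
  rcases S.eq_empty_or_nonempty with rfl | ⟨m0, hm0⟩
  · have h2 : P (aff k (MvPolynomial σ L)) := p_poly hP.toBnd σ (hn L hL)
    have hft : Algebra.FiniteType k (MvPolynomial σ L) :=
      Algebra.FiniteType.trans (S := L) inferInstance inferInstance
    have h3 : Ideal.span (Set.range (fam (k := k) ∅ M a)) = (⊥ : Ideal (MvPolynomial σ L)) := by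
      rw [Ideal.span_eq_bot]
      rintro _ ⟨i, rfl⟩
      exact Finset.sum_empty
    refine congrJ h3 ?_
    exact iso_alg hP.toUni (AlgEquiv.quotientBot k (MvPolynomial σ L)).symm h2
  let vec : (σ →₀ ℕ) → (σ → ℤ) := fun m t => (m t : ℤ)
  let M0 : S := ⟨m0, hm0⟩
  let κ' := {x : S // x ≠ M0}
  obtain ⟨ρ, ⟨e⟩⟩ : ∃ ρ, Nonempty (Fin ρ ≃ κ') := ⟨_, ⟨(Fintype.equivFin κ').symm⟩⟩
  let v : Fin ρ → (σ → ℤ) := fun i => vec (e i).1.1 - vec m0
  have hv : LinearIndependent ℚ fun i : Fin ρ => qv (v i) := by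
    have h0 := (affineIndependent_iff_linearIndependent_vsub ℚ _ M0).mp hf
    have h1 := h0.comp e e.injective
    have h2 : (fun i : Fin ρ => qv (v i)) =
        (fun i : κ' => (fun t : σ => (i.1.1 t : ℚ)) -ᵥ (fun t : σ => (M0.1 t : ℚ))) ∘ e := by
      funext i
      refine (qv_sub _ _).trans ?_
      funext t
      change (((e i).1.1 t : ℤ) : ℚ) - ((m0 t : ℤ) : ℚ) = ((e i).1.1 t : ℚ) - (m0 t : ℚ)
      push_cast
      rfl
    rw [h2]
    exact h1
  obtain ⟨β, hβ, E, j, hE, hinj, hfin, h1, h2, h3⟩ := exists_emb v hv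
  let pr : (Fin ρ ⊕ β → ℤ) →+ (Fin ρ → ℤ) :=
    { toFun := fun x i => x (Sum.inl i)
      map_zero' := rfl
      map_add' := fun _ _ => rfl }
  let j' : (σ → ℤ) →+ (Fin ρ → ℤ) := pr.comp j
  have hj' : ∀ i i', j' (v i) i' = if i = i' then (E : ℤ) else 0 := fun i i' => h2 i i'
  let U : S → Lˣ := fun m => (ha m.1 m.2).unit
  have hU : ∀ m : S, (U m : L) = a m.1 := fun m => rfl
  let c : Fin ρ → L := fun i => ((U (e i).1 * (U M0)⁻¹ : Lˣ) : L)
  obtain ⟨L', i1, i2, l, hl, ⟨eb⟩, γ0, hγ0⟩ := exists_roots hE ρ c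
  let i3 : Algebra k L' := ((algebraMap L L').comp (algebraMap k L)).toAlgebra
  have i4 : IsScalarTower k L L' := IsScalarTower.of_algebraMap_eq fun x => rfl
  have hfin' : Module.Finite L L' := Module.Finite.equiv eb.symm
  have hft : Algebra.FiniteType k L' :=
    Algebra.FiniteType.trans (S := L) inferInstance inferInstance
  have hL' : ringKrullDim L' ≤ n := (dim_integral (A := L) (B := L')).trans hL
  have hu : ∀ i, IsUnit (γ0 i) := fun i => by
    refine (isUnit_pow_iff hE.ne').mp ?_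
    rw [hγ0]
    exact (Units.isUnit _).map (algebraMap L L')
  let γ : Fin ρ → L'ˣ := fun i => (hu i).unit
  let U' : S → L'ˣ := fun m => Units.map (algebraMap L L' : L →* L') (U m)
  have hγ : ∀ i, γ i ^ E = U' (e i).1 * (U' M0)⁻¹ := by
    intro i
    have h4 : U' (e i).1 * (U' M0)⁻¹ = Units.map (algebraMap L L' : L →* L') (U (e i).1 * (U M0)⁻¹) := by
      rw [map_mul, map_inv]
    rw [h4]
    apply Units.ext
    exact hγ0 i
  have hχv : ∀ i, chi γ j' (v i) = γ i ^ E := by
    intro i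
    rw [chi]
    simp only [hj']
    rw [Finset.prod_eq_single i]
    · rw [if_pos rfl, zpow_natCast]
    · intro i' _ hi'
      rw [if_neg (Ne.symm hi'), zpow_zero]
    · intro h
      exact absurd (Finset.mem_univ i) h
  have hχ : ∀ m : S, U' m * (chi γ j' (vec m.1))⁻¹ = U' M0 * (chi γ j' (vec m0))⁻¹ := by
    intro m
    by_cases hm : m = M0
    · rw [hm]
    · have h4 : v (e.symm ⟨m, hm⟩) + vec m0 = vec m.1 := by
        change (vec (e (e.symm ⟨m, hm⟩)).1.1 - vec m0) + vec m0 = _
        rw [e.apply_symm_apply, sub_add_cancel]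
      rw [← h4, chi_add, hχv, hγ, e.apply_symm_apply]
      change U' m * (U' m * (U' M0)⁻¹ * chi γ j' (vec m0))⁻¹ = _
      rw [mul_inv, mul_inv, inv_inv, ← mul_assoc, ← mul_assoc, mul_inv_cancel, one_mul]
  let u : σ → L'ˣ := fun t => (chi γ j' (Pi.single t 1))⁻¹
  have hu' : ∀ m : σ →₀ ℕ, (m.prod fun t e => u t ^ e) = (chi γ j' (vec m))⁻¹ := by
    intro m
    have h4 : (m.prod fun t e => u t ^ e) = (m.prod fun t e => chi γ j' (Pi.single t 1) ^ e)⁻¹ := by
      rw [Finsupp.prod, Finsupp.prod, ← Finset.prod_inv_distrib]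
      refine Finset.prod_congr rfl fun t _ => ?_
      exact inv_pow _ _
    rw [h4, chi_prod]
  refine free_step hP (E := L) (E' := L') hl ⟨eb⟩ _ ?_
  rw [bc_fam]
  refine iso_symm hP (tIso (scl u) _) ?_
  let c0 : L'ˣ := U' M0 * (chi γ j' (vec m0))⁻¹
  have h6 : ∀ i, scl u (fam S M (fun m => IsScalarTower.toAlgHom k L L' (a m)) i) =
      C (c0 : L') * fam S M (fun _ => (1 : L')) i := by
    intro i
    rw [fam, fam, map_sum, ← Finset.sum_attach S, ← Finset.sum_attach S, Finset.mul_sum]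
    refine Finset.sum_congr rfl fun m _ => ?_
    rw [scl_monomial, hu', C_mul_monomial, mul_one]
    congr 1
    have h7 : IsScalarTower.toAlgHom k L L' (a m.1) = (U' m : L') := rfl
    rw [h7, mul_assoc, ← Units.val_mul, hχ, mul_comm]
  have h8 : Ideal.span (scl u '' Set.range (fam S M fun m => IsScalarTower.toAlgHom k L L' (a m))) =
      Ideal.span (Set.range (fam S M fun _ => (1 : L'))) := by
    have hcu : IsUnit (C (c0 : L') : MvPolynomial σ L') := (Units.isUnit c0).map C
    rw [← Set.range_comp]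
    apply le_antisymm
    · rw [Ideal.span_le]
      rintro _ ⟨i, rfl⟩
      change scl u (fam S M (fun m => IsScalarTower.toAlgHom k L L' (a m)) i) ∈ _
      rw [h6]
      exact Ideal.mul_mem_left _ _ (Ideal.subset_span ⟨i, rfl⟩)
    · rw [Ideal.span_le]
      rintro _ ⟨i, rfl⟩
      refine (Ideal.unit_mul_mem_iff_mem _ hcu).mp ?_
      rw [← h6]
      exact Ideal.subset_span ⟨i, rfl⟩
  rw [h8]
  exact p_const hP (hn L' hL') S M h0

omit [Fintype σ] [DecidableEq σ] in
omit hP in
lemma fam_filter {L : Type} [CommRing L] [Algebra k L] {κ : Type} (S : Finset (σ →₀ ℕ))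
    (M : κ → (σ →₀ ℕ) → k) (a : (σ →₀ ℕ) → L) [DecidablePred fun m => a m ≠ 0] :
    fam S M a = fam (S.filter fun m => a m ≠ 0) M a := by
  funext i
  rw [fam, fam, Finset.sum_filter]
  refine Finset.sum_congr rfl fun m _ => ?_
  by_cases h : a m ≠ 0
  · rw [if_pos h]
  · rw [if_neg h, not_not.mp h, mul_zero, monomial_zero]

include hn in
/-- **Independent exponents, coefficients in a base.** -/
theorem p_base {E : Type} [CommRing E] [Algebra k E] [Algebra.FiniteType k E]
    (hE : ringKrullDim E ≤ n) {r : ℕ} (hr : r ≤ 2) (S : Finset (σ →₀ ℕ))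
    (M : Fin r → (σ →₀ ℕ) → k) (a : (σ →₀ ℕ) → E)
    (hS : AffineIndependent ℚ (fun (m : S) (i : σ) => (m.1 i : ℚ))) :
    P (aff k (MvPolynomial σ E ⧸ Ideal.span (Set.range (fam S M a)))) := by
  classical
  change P (aff k (Tq (Ideal.span (Set.range (fam S M a)))))
  apply noethT hP
  intro p hp
  let D := E ⧸ p
  have hD : IsDomain D := inferInstance
  let m : E →ₐ[k] D := Ideal.Quotient.mkₐ k p
  let S' : Finset (σ →₀ ℕ) := S.filter fun s => m (a s) ≠ 0
  let w : D := ∏ s ∈ S', m (a s)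
  have hw : w ≠ 0 := Finset.prod_ne_zero_iff.mpr fun s hs => (Finset.mem_filter.mp hs).2
  refine ⟨w, hw, ?_⟩
  have := away_ft (k := k) w
  let L := Localization.Away w
  let g : E →ₐ[k] L := (IsScalarTower.toAlgHom k D L).comp m
  have hinj : Function.Injective (algebraMap D L) := IsLocalization.injective L
    (powers_le_nonZeroDivisors_of_noZeroDivisors hw)
  have hg : ∀ s, g (a s) ≠ 0 ↔ m (a s) ≠ 0 := by
    intro s
    have h1 : g (a s) = algebraMap D L (m (a s)) := rfl
    rw [h1, Ne, Ne, map_eq_zero_iff _ hinj]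
  have h1 : bc g (Ideal.span (Set.range (fam S M a))) =
      Ideal.span (Set.range (fam S' M fun s => g (a s))) := by
    rw [bc_fam, fam_filter S M fun s => g (a s)]
    have h2 : (S.filter fun s => g (a s) ≠ 0) = S' := Finset.filter_congr fun s _ => hg s
    rw [h2]
  change P (aff k (Tq (bc g (Ideal.span (Set.range (fam S M a))))))
  rw [h1]
  have hS' : AffineIndependent ℚ (fun (m : S') (i : σ) => (m.1 i : ℚ)) :=
    hS.comp_embedding ⟨fun m : S' => (⟨m.1, Finset.filter_subset _ _ m.2⟩ : S), fun x y h =>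
      Subtype.ext (congrArg (fun z : S => z.1) h)⟩
  refine p_units hP hn ((dim_away w).trans ((ringKrullDim_quotient_le p).trans hE)) S' M _
    (fun s hs => ?_) hS' ?_
  · have h3 : m (a s) ∣ w := Finset.dvd_prod_of_mem (fun s => m (a s)) hs
    exact isUnit_of_dvd_unit (map_dvd (algebraMap D L) h3)
      (IsLocalization.Away.algebraMap_isUnit w)
  · refine Pool.Agent.V5helper52.PT.p_system hP (n := 1) (fun A _ _ _ hA => hP.curve A hA) _
      (Or.inl ⟨hr, Or.inr ?_⟩)
    have hsub : (Finset.univ.biUnion fun l => (fam (k := k) S' M (fun _ => (1 : k)) l).support :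
        Finset (σ →₀ ℕ)) ⊆ S' := by
      intro s hs
      obtain ⟨l, _, hl⟩ := Finset.mem_biUnion.mp hs
      by_contra h
      refine (mem_support_iff.mp hl) ?_
      rw [fam, coeff_sum]
      refine Finset.sum_eq_zero fun m' hm' => ?_
      rw [coeff_monomial, if_neg]
      rintro rfl
      exact h hm'
    exact hS'.comp_embedding ⟨fun m : (Finset.univ.biUnion fun l =>
      (fam (k := k) S' M (fun _ => (1 : k)) l).support : Finset (σ →₀ ℕ)) =>
        (⟨m.1, hsub m.2⟩ : S'), fun x y h => Subtype.ext (congrArg (fun z : S' => z.1) h)⟩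

end Pool.Agent.V5helper52.FB
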