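import Pool.Agent.V5helper52.FB.Fam

/-!
# Systems of polynomials with few terms over a base
-/

set_option autoImplicit false
set_option maxHeartbeats 400000

open CategoryTheory AlgebraicGeometry MvPolynomial Pool.Agent.Y116.UV Pool.Agent.V5helper52.SF
  Pool.Agent.Z125.UN

namespace Pool.Agent.V5helper52.FB

/-- The exponents of all monomials of the polynomials `F_1, …, F_r`. -/
def Exps {E : Type} [CommRing E] {N r : ℕ} (F : Fin r → MvPolynomial (Fin N) E) :
    Finset (Fin N →₀ ℕ) :=
  Finset.univ.biUnion fun i => (F i).support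

/-- The polynomials `F_1, …, F_r` in `N` variables over the `k`-algebra `E` have few terms:

1. `dim E ≤ n`, `r ≤ 2`, and there are a finite set `S` of affinely independent exponents, elements
   `a(m)` of `E` and `M_i(m)` of `k` with `F_i = ∑_{m ∈ S} M_i(m) a(m) x^m`;
2. or `E = k`, and together the `F_i` have at most `n + 3` monomials, and `r ≤ 2`;
3. or `E = k`, and the exponents of the monomials of all `F_i` are in an affine subspace of dimension at
   most `n + 1`. -/
def HasFewTerms (k : Type) [Field k] (n : ℕ) {E : Type} [CommRing E] [Algebra k E] {N r : ℕ}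
    (F : Fin r → MvPolynomial (Fin N) E) : Prop :=
  (ringKrullDim E ≤ n ∧ r ≤ 2 ∧ ∃ (S : Finset (Fin N →₀ ℕ)) (a : (Fin N →₀ ℕ) → E)
    (M : Fin r → (Fin N →₀ ℕ) → k), AffineIndependent ℚ (fun (m : S) (i : Fin N) => (m.1 i : ℚ)) ∧
      ∀ i, F i = ∑ m ∈ S, monomial m (algebraMap k E (M i m) * a m)) ∨
  (Function.Bijective (algebraMap k E) ∧ ((r ≤ 2 ∧ (Exps F).card ≤ n + 3) ∨
    Module.finrank ℚ
      (vectorSpan ℚ (Set.range fun (m : Exps F) (i : Fin N) => (m.1 i : ℚ))) ≤ n + 1))

variable {k : Type} [Field k] {P : Sch k → Prop} (hP : Cls True P) {n : ℕ}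
  (hn : ∀ (A : Type) [CommRing A] [Algebra k A] [Algebra.FiniteType k A], ringKrullDim A ≤ n →
    P (aff k A))
  {E : Type} [CommRing E] [Algebra k E] [Algebra.FiniteType k E] {N r : ℕ}
  (F : Fin r → MvPolynomial (Fin N) E) (hF : HasFewTerms k n F)

include hF in
omit [Algebra.FiniteType k E] in
lemma few_dim : ringKrullDim E ≤ n := by
  rcases hF with ⟨hE, _⟩ | ⟨hb, _⟩
  · exact hE
  · let e : k ≃+* E := RingEquiv.ofBijective (algebraMap k E) hb
    rw [← ringKrullDim_eq_of_ringEquiv e, ringKrullDim_eq_zero_of_field]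
    exact_mod_cast Nat.zero_le n

include hP hn hF

/-- **Systems of polynomials with few terms.** -/
theorem p_main : P (aff k (MvPolynomial (Fin N) E ⧸ Ideal.span (Set.range F))) := by
  classical
  rcases hF with ⟨hE, hr, S, a, M, hS, h⟩ | ⟨hb, hF⟩
  · have h1 : F = fam S M a := funext h
    rw [h1]
    exact p_base hP hn hE hr S M a hS
  · let e : k ≃ₐ[k] E := AlgEquiv.ofBijective (Algebra.ofId k E) hb
    let e2 : MvPolynomial (Fin N) k ≃ₐ[k] MvPolynomial (Fin N) E := MvPolynomial.mapAlgEquiv (Fin N) e
    let G : Fin r → MvPolynomial (Fin N) k := fun i => e2.symm (F i)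
    have hG : ∀ i, e2 (G i) = F i := fun i => e2.apply_symm_apply _
    have hs : ∀ i, (G i).support = (F i).support := by
      intro i
      rw [← hG i]
      exact (support_map_of_injective (G i) e.injective).symm
    have hE : Exps G = Exps F := by
      rw [Exps, Exps]
      exact Finset.biUnion_congr rfl fun i _ => hs i
    have h1 : P (aff k (MvPolynomial (Fin N) k ⧸ Ideal.span (Set.range G))) := by
      refine Pool.Agent.V5helper52.PT.p_system hP hn G ?_
      rcases hF with ⟨hr, hF⟩ | hF
      · refine Or.inl ⟨hr, Or.inl ?_⟩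
        rw [← hE] at hF
        exact hF
      · refine Or.inr ?_
        rw [← hE] at hF
        exact hF
    refine iso_alg hP.toUni (Ideal.quotientEquivAlg _ _ e2 ?_) h1
    rw [Ideal.map_span, ← Set.range_comp]
    congr 2
    funext i
    exact (hG i).symm

/-- the ambient affine space -/
theorem p_space : P (aff k (MvPolynomial (Fin N) E)) :=
  p_poly hP.toBnd (Fin N) (hn E (few_dim F hF))

end Pool.Agent.V5helper52.FB
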