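import Mathlib

/-!
# Adjoining roots, and scaling of the variables
-/

set_option autoImplicit false
set_option maxHeartbeats 400000

open MvPolynomial

namespace Pool.Agent.V5helper52.FB

theorem exists_root {L : Type} [CommRing L] {E : ℕ} (hE : 0 < E) (a : L) :
    ∃ (L' : Type) (_ : CommRing L') (_ : Algebra L L') (n : ℕ), 0 < n ∧
      Nonempty (L' ≃ₗ[L] (Fin n → L)) ∧ ∃ γ : L', γ ^ E = algebraMap L L' a := by
  by_cases hs : Subsingleton L
  · exact ⟨L, inferInstance, inferInstance, 1, one_pos,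
      ⟨(LinearEquiv.funUnique (Fin 1) L L).symm⟩, 0, Subsingleton.elim _ _⟩
  · have hn : Nontrivial L := not_subsingleton_iff_nontrivial.mp hs
    have hm : (Polynomial.X ^ E - Polynomial.C a).Monic := Polynomial.monic_X_pow_sub_C a hE.ne'
    refine ⟨AdjoinRoot (Polynomial.X ^ E - Polynomial.C a), inferInstance, inferInstance, E, hE,
      ⟨?_⟩, AdjoinRoot.root _, ?_⟩
    · have h := (AdjoinRoot.powerBasis' hm).basis.equivFun
      have h2 : (AdjoinRoot.powerBasis' hm).dim = E := by
        rw [AdjoinRoot.powerBasis'_dim, Polynomial.natDegree_X_pow_sub_C]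
      rw [h2] at h
      exact h
    · have h := AdjoinRoot.eval₂_root (Polynomial.X ^ E - Polynomial.C a)
      rw [Polynomial.eval₂_sub, Polynomial.eval₂_pow, Polynomial.eval₂_X, Polynomial.eval₂_C] at h
      exact sub_eq_zero.mp h

theorem exists_roots {L : Type} [CommRing L] {E : ℕ} (hE : 0 < E) (r : ℕ) (a : Fin r → L) :
    ∃ (L' : Type) (_ : CommRing L') (_ : Algebra L L') (n : ℕ), 0 < n ∧
      Nonempty (L' ≃ₗ[L] (Fin n → L)) ∧ ∃ γ : Fin r → L', ∀ i, γ i ^ E = algebraMap L L' (a i) := by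
  induction r with
  | zero =>
    exact ⟨L, inferInstance, inferInstance, 1, one_pos,
      ⟨(LinearEquiv.funUnique (Fin 1) L L).symm⟩, fun _ => 0, fun i => i.elim0⟩
  | succ r ih =>
    obtain ⟨L1, i1, i2, n1, hn1, ⟨e1⟩, γ1, hγ1⟩ := ih (fun i => a i.succ)
    obtain ⟨L2, i3, i4, n2, hn2, ⟨e2⟩, γ2, hγ2⟩ := exists_root hE (algebraMap L L1 (a 0))
    let i5 : Algebra L L2 := ((algebraMap L1 L2).comp (algebraMap L L1)).toAlgebra
    have i6 : IsScalarTower L L1 L2 := IsScalarTower.of_algebraMap_eq fun x => rfl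
    refine ⟨L2, i3, i5, n2 * n1, Nat.mul_pos hn2 hn1, ⟨?_⟩,
      Fin.cons γ2 (fun i => algebraMap L1 L2 (γ1 i)), ?_⟩
    · exact (((e2.restrictScalars L).trans (LinearEquiv.piCongrRight fun _ => e1)).trans
        (LinearEquiv.curry L L (Fin n2) (Fin n1)).symm).trans
        (LinearEquiv.funCongrLeft L L finProdFinEquiv.symm)
    · intro i
      refine Fin.cases ?_ (fun i => ?_) i
      · exact hγ2
      · change algebraMap L1 L2 (γ1 i) ^ E = algebraMap L1 L2 (algebraMap L L1 (a i.succ))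
        rw [← map_pow, hγ1]

section scl

variable {L : Type} [CommRing L] {σ : Type}

/-- scaling of the variables by units -/
noncomputable def scl (u : σ → Lˣ) : MvPolynomial σ L ≃ₐ[L] MvPolynomial σ L :=
  AlgEquiv.ofAlgHom (aeval fun i => C (u i : L) * X i) (aeval fun i => C (↑(u i)⁻¹ : L) * X i)
    (by
      apply MvPolynomial.algHom_ext
      intro i
      rw [AlgHom.comp_apply, aeval_X, map_mul, aeval_X, aeval_C, ← mul_assoc, algebraMap_eq, ← C_mul,
        Units.inv_mul, C_1, one_mul]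
      rfl)
    (by
      apply MvPolynomial.algHom_ext
      intro i
      rw [AlgHom.comp_apply, aeval_X, map_mul, aeval_X, aeval_C, ← mul_assoc, algebraMap_eq, ← C_mul,
        Units.mul_inv, C_1, one_mul]
      rfl)

lemma scl_monomial (u : σ → Lˣ) (m : σ →₀ ℕ) (c : L) : scl u (monomial m c) =
    monomial m (c * ((m.prod fun i e => u i ^ e : Lˣ) : L)) := by
  change aeval (fun i => C (u i : L) * X i) (monomial m c) = _
  rw [aeval_monomial, algebraMap_eq]
  have h1 : (m.prod fun i e => (C (u i : L) * X i : MvPolynomial σ L) ^ e) =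
      C ((m.prod fun i e => u i ^ e : Lˣ) : L) * m.prod fun i e => (X i : MvPolynomial σ L) ^ e := by
    rw [Finsupp.prod, Finsupp.prod, Finsupp.prod, Units.coe_prod, map_prod,
      ← Finset.prod_mul_distrib]
    refine Finset.prod_congr rfl fun i _ => ?_
    rw [mul_pow, Units.val_pow_eq_pow_val, C_pow]
  rw [h1, ← mul_assoc, ← C_mul]
  exact (monomial_eq).symm

end scl

section chi

variable {G : Type} [CommGroup G] {σ : Type} {ρ : ℕ}

/-- the character -/
def chi (γ : Fin ρ → G) (j : (σ → ℤ) →+ (Fin ρ → ℤ)) (x : σ → ℤ) : G := ∏ i, γ i ^ (j x i)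

lemma chi_add (γ : Fin ρ → G) (j : (σ → ℤ) →+ (Fin ρ → ℤ)) (x y : σ → ℤ) :
    chi γ j (x + y) = chi γ j x * chi γ j y := by
  rw [chi, chi, chi, ← Finset.prod_mul_distrib]
  refine Finset.prod_congr rfl fun i _ => ?_
  rw [map_add, Pi.add_apply, zpow_add]

lemma chi_zero (γ : Fin ρ → G) (j : (σ → ℤ) →+ (Fin ρ → ℤ)) : chi γ j 0 = 1 := by
  have h := chi_add γ j 0 0
  rw [add_zero] at h
  exact (mul_eq_left.mp h.symm)

lemma chi_nsmul (γ : Fin ρ → G) (j : (σ → ℤ) →+ (Fin ρ → ℤ)) (x : σ → ℤ) (e : ℕ) :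
    chi γ j (e • x) = chi γ j x ^ e := by
  induction e with
  | zero => rw [zero_smul, chi_zero, pow_zero]
  | succ e ih => rw [succ_nsmul, chi_add, ih, pow_succ]

lemma chi_prod [DecidableEq σ] (γ : Fin ρ → G) (j : (σ → ℤ) →+ (Fin ρ → ℤ)) (m : σ →₀ ℕ) :
    (m.prod fun t e => chi γ j (Pi.single t 1) ^ e) = chi γ j fun t => (m t : ℤ) := by
  induction m using Finsupp.induction_linear with
  | zero =>
    rw [Finsupp.prod_zero_index]
    exact (chi_zero γ j).symm
  | add f g hf hg =>
    rw [Finsupp.prod_add_index' (fun _ => pow_zero _) (fun _ _ _ => pow_add _ _ _), hf, hg,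
      ← chi_add]
    exact congrArg (chi γ j) (funext fun t => by
      change (f t : ℤ) + (g t : ℤ) = ((f + g) t : ℕ)
      rw [Finsupp.add_apply, Nat.cast_add])
  | single t e =>
    refine (Finsupp.prod_single_index (h := fun t e => chi γ j (Pi.single t 1) ^ e)
      (pow_zero _)).trans ?_
    rw [← chi_nsmul]
    refine congrArg (chi γ j) (funext fun s => ?_)
    rw [Pi.smul_apply, Pi.single_apply, Finsupp.single_apply]
    by_cases h : s = t
    · rw [if_pos h, if_pos h.symm]
      simp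
    · rw [if_neg h, if_neg (Ne.symm h)]
      simp

end chi

end Pool.Agent.V5helper52.FB
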